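import Pool.Agent.helper80.T1.SpecO
import Pool.Agent.helper47.T1.SpecE4

/-!
# MP_07c750, project T1: the interface form `QOP` of the effective operator bound, from row `OPE`
-/

set_option autoImplicit false

open scoped MatrixGroups ContDiff Topology UpperHalfPlane ComplexConjugate
open UpperHalfPlane MeasureTheory Filter Set

namespace Pool.Agent.T1

open Pool.Agent.RS Pool.Agent.MS Pool.Agent.HV

theorem QOP_proof (hOPE : OPE_stmt) : QOP_stmt := by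
  intro β α hβ hα
  obtain ⟨K, κ, hK, hκ0, hκ1, h⟩ := hOPE β α hβ hα
  have hk0 : 0 < min (κ / 2) (1 / 8) := lt_min (by linarith) (by norm_num)
  have hk1 : min (κ / 2) (1 / 8) ≤ κ / 2 := min_le_left _ _
  have hk2 : min (κ / 2) (1 / 8) ≤ 1 / 8 := min_le_right _ _
  set κ' : ℝ := min (κ / 2) (1 / 8) with hκ'
  have hL : (1 : ℝ) ≤ (2 : ℝ) ^ (2 / κ) := Real.one_le_rpow (by norm_num) (by positivity)
  refine ⟨K + (2 : ℝ) ^ (2 / κ), κ', by linarith, hk0, hk2, ?_⟩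
  intro Γ F r T ε Q J0 B1 D Dp hΓ hF hr hT0 hT hε hε1 hJ1 hJ2 hQ hB1 hDp hB1i hDpi hloc hleaf s hs hsb hsi hsD
  have hr1 : 1 ≤ r := by linarith
  have hr0 : 0 < r := by linarith
  have hrK : K ≤ r := by linarith
  have hr2 : (2 : ℝ) ^ (2 / κ) ≤ r := by linarith
  have hlog : 0 ≤ Real.log r := Real.log_nonneg hr1
  have hε0 : 0 < ε := lt_of_lt_of_le (Real.rpow_pos_of_pos hr0 _) hε
  have h1 : r ^ (-κ) ≤ r ^ (-κ') := Real.rpow_le_rpow_of_exponent_le hr1 (by linarith)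
  have h2 : (2 : ℝ) ≤ r ^ (κ / 2) := by
    have e1 : ((2 : ℝ) ^ (2 / κ)) ^ (κ / 2) = 2 := by
      rw [← Real.rpow_mul (by norm_num)]
      have : 2 / κ * (κ / 2) = 1 := by field_simp
      rw [this, Real.rpow_one]
    calc (2 : ℝ) = ((2 : ℝ) ^ (2 / κ)) ^ (κ / 2) := e1.symm
      _ ≤ r ^ (κ / 2) := Real.rpow_le_rpow (by positivity) hr2 (by linarith)
  have h3 : (J0 : ℝ) ≤ r ^ κ := by
    have e1 : ε⁻¹ ≤ r ^ κ' := by
      rw [inv_le_comm₀ hε0 (Real.rpow_pos_of_pos hr0 _), ← Real.rpow_neg hr0.le]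
      exact hε
    have e2 : (J0 : ℝ) ≤ 2 * ε⁻¹ := by
      rw [← div_eq_mul_inv, le_div_iff₀ hε0]
      exact hJ2
    have e3 : r ^ κ' ≤ r ^ (κ / 2) := Real.rpow_le_rpow_of_exponent_le hr1 hk1
    have e4 : r ^ κ = r ^ (κ / 2) * r ^ (κ / 2) := by
      rw [← Real.rpow_add hr0]
      congr 1
      ring
    have e5 : 0 < r ^ (κ / 2) := Real.rpow_pos_of_pos hr0 _
    calc (J0 : ℝ) ≤ 2 * ε⁻¹ := e2
      _ ≤ 2 * r ^ (κ / 2) := by linarith
      _ ≤ r ^ (κ / 2) * r ^ (κ / 2) := mul_le_mul_of_nonneg_right h2 e5.le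
      _ = r ^ κ := e4.symm
  have hmain := h Γ F r T ε Q J0 B1 D Dp hΓ hF hrK hT0 (by nlinarith) (h1.trans hε) hε1 hJ1 h3 hQ hB1 hDp hB1i hDpi hloc hleaf s hs hsb hsi hsD
  refine hmain.trans ?_
  have hi0 : 0 ≤ iR F (fun g => ‖s g‖ ^ 2) := by
    unfold iR
    exact integral_nonneg fun g => by positivity
  exact mul_le_mul_of_nonneg_right (by linarith) hi0

end Pool.Agent.T1
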