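import Pool.Agent.helper62.HF.AllV
import Pool.Agent.helper47.T1.QPV
import Pool.Agent.helper80.T1.QOP
import Pool.Agent.helper78.T1.QST
import Pool.Agent.helper30.T1.QTR
import Pool.Agent.helper75.T1.QLP
import Pool.Agent.helper72.T1.QBT
import Pool.Agent.helper92.T1.QB1
import Pool.Agent.helper13.T1.QB2
import Pool.Agent.helper66.T1.QB3
import Pool.Agent.helper85.T1.QB5
import Pool.Agent.helper98.T1.QEF
import Pool.Agent.helper22.T1.QFR
import Pool.Agent.helper26.T1.QFA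
import Pool.Agent.helper33.T1.QE1
import Pool.Agent.helper40.T1.QE3
import Pool.Agent.helper87.T1.QE4
import Pool.Agent.helper29.T1.QFB
import Pool.Agent.helper93.T1.OCB
import Pool.Agent.helper15.T1.OEJ
import Pool.Agent.helper75.T1.OCH
import Pool.Agent.helper14.T1.OAM
import Pool.Agent.helper29.T1.OKB
import Pool.Agent.helper77.T1.OTA
import Pool.Agent.helper40.T1.OPE

/-!
# MP_07c750, project T1: assembly of the block E (effective frames, operator bound, uncertainty principle)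
-/

set_option autoImplicit false

namespace Pool.Agent.T1

open Pool.Agent.RS Pool.Agent.MS Pool.Agent.HV

theorem L_QST : QST_stmt := QST_proof
theorem L_QTR : QTR_stmt := QTR_proof RS.A_FL0 RS.A_GYN
theorem L_QLP : QLP_stmt := QLP_proof
theorem L_QBT : QBT_stmt := QBT_proof
theorem L_QB1 : QB1_stmt := QB1_proof
theorem L_QB2 : QB2_stmt := QB2_proof
theorem L_QB3 : QB3_stmt := QB3_proof L_QB1
theorem L_QB5 : QB5_stmt := QB5_proof L_QB2 L_QB3 L_QBT RS.A_BK4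
theorem L_QEF : QEF_stmt := QEF_proof L_QB3 L_QTR L_QLP L_QBT RS.A_GFD RS.A_GBD RS.A_FL0 RS.A_FL4 RS.A_GR2 RS.A_CV1
theorem L_QFR : QFR_stmt := QFR_proof L_QB5 L_QEF RS.A_ALH RS.A_CV1 RS.A_FL0 RS.A_GR2 RS.A_NR5
theorem L_QFA : QFA_stmt := QFA_proof L_QFR L_QST
theorem L_QE1 : QE1_stmt := QE1_proof L_QFR RS.A_CV1 RS.A_FL0
theorem L_QE3 : QE3_stmt := QE3_proof L_QE1 L_QST MS.A_STB MS.A_EQ2 RS.A_GLC RS.A_GFD RS.A_GBD RS.A_CV1 RS.A_FL0
theorem L_QE4 : QE4_stmt := QE4_proof L_QE3 L_QFR L_QST MS.A_STB RS.A_GFD RS.A_GBD RS.A_FL0 RS.A_CV1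
theorem L_QFB : QFB_stmt := QFB_proof L_QE1 L_QE3 L_QE4 L_QST
theorem L_OCB : OCB_stmt := OCB_proof
theorem L_OEJ : OEJ_stmt := OEJ_proof
theorem L_OCH : OCH_stmt := OCH_proof
theorem L_OAM : OAM_stmt := OAM_proof L_OCH
theorem L_OKB : OKB_stmt := OKB_proof L_OAM
theorem L_OTA : OTA_stmt := OTA_proof L_OKB
theorem L_OPE : OPE_stmt := OPE_proof L_OCB L_OEJ L_OTA L_QTR L_QFR L_QST L_QFA
theorem L_QOP : QOP_stmt := QOP_proof L_OPE
theorem L_QPV : QPV_stmt := QPV_proof L_QOP L_QFA L_QFB L_QST MS.A_STB MS.A_INW HV.A_AS4 RS.A_CV1 RS.A_FL0 RS.A_GFD RS.A_GBD RS.A_GLC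

end Pool.Agent.T1
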