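import Pool.Agent.helper47.T1.SpecE1
import Pool.Agent.helper62.HF.SpecW

/-!
# MP_07c750, project T1 (helper52: entropy `≥ 1/2 + c` on every closed hyperbolic surface), block E, part E3: the EFFECTIVE operator bound, rows `t1:OXX`

The rows OV3, OSC (MS), TAI, OPB (HF) with polynomial dependence on the profiles, so that the cells may have the width `ε ≥ r^(-κ)` and the packets the width `e^(-T) ≥ r^(-κ)`. Every row is a small change of a proved file (named in its docstring).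
NOTATION as in `helper47/T1/SpecE1.lean` (`SBM J M β` = smooth, support in `[-1/4, 1/4]`, derivatives up to the order `J` bounded by `M`), `helper62/MS/SpecA.lean` (`Dk`, `amk`, `gk`, `st`, `pf`) and `helper62/HF/SpecV.lean` (`PU`, `bj`, `b1`, `ej`).

RULES. Row `t1:OXX` (problem MP_07c750_an): file `Pool/Agent/<seat>/T1/OXX.lean`, `import Pool.Agent.helper80.T1.SpecO` and the proved files which you use (`Pool.Agent.helper62.HF.AllV` gives everything of RS, MS, HV: `RS.A_GR2`, `MS.A_OV3`, `HV.A_CLL`, ..), `set_option autoImplicit false`, namespace `Pool.Agent.T1`,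
`open Pool.Agent.RS Pool.Agent.MS Pool.Agent.HV`, auxiliary lemmas prefixed `OXX_`, theorem `OXX_proof (h : OYY_stmt) .. : OXX_stmt`; rows of RS, MS, HV may be used as theorems (`RS.A_..`, `MS.A_..`, `HV.A_..`). No `convert`, `congr!`, `native_decide`, no double quotes, no `private`.
-/

set_option autoImplicit false

open scoped MatrixGroups ContDiff Topology UpperHalfPlane ComplexConjugate
open UpperHalfPlane MeasureTheory Filter Set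

namespace Pool.Agent.T1

open Pool.Agent.RS Pool.Agent.MS Pool.Agent.HV

noncomputable section

/-- **Row OCB** (the profiles of the cells; short-medium; pure; HV.A_CLL gives `SB`). `bj χ β ε j x = β x χ(x/ε - j)` and `b1 χ β ε j x = β x χ1(x/ε - j)`, `χ1 y = (π/2) y χ y`, where `χ`, `χ1` are smooth with support in `[-1, 1]` (`PU.sp`): their derivatives of order `≤ 4` are bounded by some `C2`, those of `β` by `C1` (QST, or compact support).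
The `i`-th derivative of `x ↦ χ(x/ε - j)` is `ε^(-i) χ^(i)(x/ε - j)` (`iteratedDeriv_comp_const_mul`, translation: `iteratedDeriv_comp_sub_const`), at most `ε^(-4) C2`; Leibniz (`iteratedDeriv_fun_mul` or `iteratedDeriv_mul`): `≤ 16 C1 C2 ε^(-4)`. -/
def OCB_stmt : Prop := ∀ χ β : ℝ → ℝ, PU χ → SB (1 / 4) β → ∃ C : ℝ, 1 ≤ C ∧ ∀ (ε : ℝ) (j : ℤ), 0 < ε → ε ≤ 1 → SBM 4 (C / ε ^ 4) (bj χ β ε j) ∧ SBM 4 (C / ε ^ 4) (b1 χ β ε j)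

/-- **Row OEJ** (the error profile; short-medium; pure; QU.A_CA1, compare QLP, `helper97/RS/CV1.lean`, `helper23/HF/DVF.lean`). `b = bj χ β ε j`, `|b| ≤ C`, `|b'| ≤ C/ε` (the first derivative of `β x χ(x/ε - j)`, `ε ≤ 1`). At `z = x + iy` with `|x|, |log y| ≤ 1/4` (elsewhere both terms vanish: `b` and `α` and their derivatives are `0`):
`xm (pc b α) z = x b(x) α(log y)`, `kW (pc b α) z = (x² - y²) b'(x) α(log y) + 2 x b(x) α'(log y)` (`px (pc b α) z = b'(x) α(log y)`, `QU.dY (pc b α) z = b(x) α'(log y)`, `y ≤ 2`). -/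
def OEJ_stmt : Prop := ∀ χ β α : ℝ → ℝ, PU χ → SB (1 / 4) β → SB (1 / 4) α → ∃ C : ℝ, 1 ≤ C ∧ ∀ (ε : ℝ) (j : ℤ) (z : ℍ), 0 < ε → ε ≤ 1 → ‖ej χ β α ε j z‖ ≤ C / ε

/-- **Row OCH** (chain and product rule; short-medium; pure). `f = β(X) α(Y) P`: `f' = β' X' α P + β α' Y' P + β α P'` and
`f'' = β'' X'² α P + β' X'' α P + 2 β' X' α' Y' P + 2 β' X' α P' + β α'' Y'² P + β α' Y'' P + 2 β α' Y' P' + β α P''`: ten terms (with multiplicity), each at most `M² D³`. (All functions are `C²` on the whole line; the bounds for `X, Y, P` are needed only at the point `x`.) -/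
def OCH_stmt : Prop := ∀ (β α X Y P : ℝ → ℝ) (M D x : ℝ), ContDiff ℝ 2 β → ContDiff ℝ 2 α → ContDiff ℝ 2 X → ContDiff ℝ 2 Y → ContDiff ℝ 2 P → 1 ≤ D → (∀ j ≤ 2, ∀ y, |iteratedDeriv j β y| ≤ M ∧ |iteratedDeriv j α y| ≤ M) →
  (∀ j : ℕ, 1 ≤ j → j ≤ 2 → |iteratedDeriv j X x| ≤ D ∧ |iteratedDeriv j Y x| ≤ D) → (∀ j ≤ 2, |iteratedDeriv j P x| ≤ D) →
    ∀ j ≤ 2, |iteratedDeriv j (fun x => β (X x) * α (Y x) * P x) x| ≤ 10 * M ^ 2 * D ^ 3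

/-- **Row OAM** (the effective OV3; medium; from OCH; adapt `helper49/MS/OV3.lean`: all its lemmas are public). Everything about `Dk`, `log Dk`, and the smoothness of `amk`: MS.A_OV3 for `c = pc β α`; the bounds for the derivatives of `log Dk`, which do not depend on `c`: MS.A_OV3 for `c = 0` (a universal constant).
The bounds of `amk (pc β α) k x τ = β(X) α(Y) P` with `X = Re (k⁻¹ • pt x τ)`, `Y = log Im (k⁻¹ • pt x τ) = τ - log Dk`, `P = Dk^(-1/2)`: `X`, `Y`, `P` are smooth functions of the entries of `k⁻¹` and of `x`, `τ` on the open set `OV1_U`, so by `OV3_bd` their derivatives along the lines `x ↦ ..`, `τ ↦ ..` up to the order 2 are bounded by a universal `D` on the compact set of `OV3_proof`; OCH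
(the complex function `amk` is the real one, `Complex.ofReal`). -/
def OAM_stmt : Prop := ∃ K : ℝ, 1 ≤ K ∧ ∀ (β α : ℝ → ℝ) (M : ℝ), 1 ≤ M → SBM 2 M β → SBM 2 M α → ∀ k : SL(2, ℝ), (∀ i j, |k.1 i j| ≤ 3) →
  (∀ x τ : ℝ, 0 < Dk k x τ) ∧ (∀ τ : ℝ, ContDiff ℝ ∞ (fun x => amk (pc β α) k x τ) ∧ ContDiff ℝ ∞ (fun x => Real.log (Dk k x τ))) ∧
  (∀ x : ℝ, ContDiff ℝ ∞ (fun τ => amk (pc β α) k x τ) ∧ ContDiff ℝ ∞ (fun τ => Real.log (Dk k x τ))) ∧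
  ∀ x τ : ℝ, |x| ≤ 1 / 4 → |τ| ≤ 1 / 4 → 1 / 200 ≤ Dk k x τ ∧ Dk k x τ ≤ 60 ∧ ‖amk (pc β α) k x τ‖ ≤ K * M ^ 2 ∧
    (∀ j : ℕ, 1 ≤ j → j ≤ 2 → ‖iteratedDeriv j (fun x => amk (pc β α) k x τ) x‖ ≤ K * M ^ 2 ∧ ‖iteratedDeriv j (fun τ => amk (pc β α) k x τ) τ‖ ≤ K * M ^ 2) ∧
    (∀ j : ℕ, 1 ≤ j → j ≤ 3 → |iteratedDeriv j (fun x => Real.log (Dk k x τ)) x| ≤ K * M ^ 2 * |k.1 1 0| ∧ |iteratedDeriv j (fun τ => Real.log (Dk k x τ)) τ| ≤ K * M ^ 2) ∧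
    deriv (fun x => Real.log (Dk k x τ)) x = -2 * k.1 1 0 * (k.1 0 0 - k.1 1 0 * x) / Dk k x τ ∧
    deriv (fun τ => Real.log (Dk k x τ)) τ = 2 * k.1 1 0 ^ 2 * Real.exp (2 * τ) / Dk k x τ

/-- **Row OKB** (the effective OSC; short-medium; from OAM, MS.A_OI2, MS.A_GKF; adapt `helper54/MS/OSC.lean`: its last theorem computes the constant `4 (B² m + 8 B² m (1 + 240 m)² 240² · 9) + 1` from a bound `B` of `β0`, `α0` and their first two derivatives (`2 M`) and the constant `m` of OV3 (`K M'²`), and uses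
OV3 only in the form of OAM). `1 ≤ m`, so the constant is `≤ C M² m³ ≤ C' M² M'^6`. -/
def OKB_stmt : Prop := ∃ K : ℝ, 1 ≤ K ∧ ∀ (β0 α0 β α : ℝ → ℝ) (M M' : ℝ), 1 ≤ M → 1 ≤ M' → SBM 2 M β0 → SBM 2 M α0 → SBM 2 M' β → SBM 2 M' α → ∀ (T r : ℝ) (k : SL(2, ℝ)), 0 ≤ T → 1 ≤ r →
  ‖gk r (pc (st (-T) β0) α0) (pc β α) k‖ ≤ K * M ^ 2 * M' ^ 6 * Real.exp (-(T / 2)) / (1 + Real.exp (-T) * r * |k.1 1 0|) ^ 2

/-- **Row OTA** (the effective TAI; short; from OKB, HV.A_SCX, MS.A_GKF, MS.A_STB, RS; adapt `helper30/HF/TAI.lean`). Its constant is `C'² + 1`, `C' = C1 e^(-T/2)/(e^(-T) δ1)² m`, `C1` = the constant of OSC (`K M² M'^6`), `m = mG (TAI_Z δ1) ≤ mG {entries ≤ 3}`. (Here the term `+ 1` is not needed.) -/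
def OTA_stmt : Prop := ∃ K : ℝ, 1 ≤ K ∧ ∀ (Γ : Subgroup SL(2, ℝ)) (F : Set ℍ) (β0 α0 β1 α : ℝ → ℝ) (M M' T δ1 : ℝ), QU.SurfaceGroup Γ → QU.NiceDom Γ F → 1 ≤ M → 1 ≤ M' → SBM 2 M β0 → SBM 2 M α0 → SBM 2 M' β1 → SBM 2 M' α → 0 ≤ T → 0 < δ1 →
  ∀ (r : ℝ) (s : SL(2, ℝ) → ℂ) (D : Set SL(2, ℝ)), 1 ≤ r → Measurable s → (∃ m : ℝ, ∀ g, ‖s g‖ ≤ m) → (∀ (γ : Γ) g, s ((γ : SL(2, ℝ)) * g) = s g) → MeasurableSet D →
    (∀ (g k : SL(2, ℝ)) (w : ℍ), g ∈ D → s (g * k) ≠ 0 → pc (st (-T) β0) α0 w ≠ 0 → pc β1 α (k • w) ≠ 0 → δ1 < |k.1 1 0|) →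
      r ^ 2 * ∫ g in dG F ∩ D, ‖Wf (pk r (pc β1 α)) (sy Γ F (fun z => conj (pk r (pc (st (-T) β0) α0) z)) s) g‖ ^ 2 ∂mG ≤ K * M ^ 4 * M' ^ 12 * Real.exp (3 * T) / (r ^ 2 * δ1 ^ 4) * iR F (fun g => ‖s g‖ ^ 2)

/-- **Row OPE** (E3: the effective operator bound; medium; from OCB, OEJ, OTA, QFR, QFA, QTR, QST, HV: A_PUX, A_CLL, A_DVF, A_OPL, MS: A_SYB, A_STB, RS; adapt `helper95/HF/OPB.lean`: OPB_avg, OPB_seg, OPB_comb, OPB_Wf, OPB_num are public). Fix `χ` (PUX). `M0` with `SBM 4 M0 β`, `SBM 4 M0 α` (QST), `C ≥ M0` larger than the constants of OCB and OEJ.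
`κ = min (κ_QFA) (1/400)`. For `r ≥ K`: (a) QFR for `bj`, `b1` (`M = C/ε⁴ ≤ C r^(4κ)`): `r qn ≤ (∫ bj² + K' C⁴ r^(16κ - 1/8)) nn`, and `(2 J0 + 1) K' C⁴ r^(16κ - 1/8) ≤ 3 K' C⁴ r^(17κ - 1/8) ≤ 1`. (b) QFA (`M0`): frame bound `11/10` for `pc (st (-T) β) α` (`r^(-κ) ≤ 1/10`). (c) `l = π/(4 ε r) ≤ r^(-1/2)`
(`ε ≥ r^(-κ)`), QTR and OEJ: `r l² Σ_j qn (ej) ≤ r (π²/(16 ε² r²)) (2 J0 + 1) K' C² ε^(-2) nn ≤ C' r^(5κ - 1) nn ≤ nn`. (d) OTA with `δ1 = r^(-1/4)`, `M = M0`, `M' = C/ε⁴`: `2 (2 J0 + 1)² K' M0⁴ C^12 r^(48κ) r^(3κ)/(r² r^(-1)) ≤ C'' r^(53κ - 1) ≤ r^(-κ)`. Everything else as in OPB_proof (`η = r^(-κ)`). -/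
def OPE_stmt : Prop := ∀ β α : ℝ → ℝ, BB (1 / 4) β → BA (1 / 4) α → ∃ K κ : ℝ, 1 ≤ K ∧ 0 < κ ∧ κ ≤ 1 ∧ ∀ (Γ : Subgroup SL(2, ℝ)) (F : Set ℍ) (r T ε Q : ℝ) (J0 : ℕ) (B1 D Dp : Set SL(2, ℝ)), QU.SurfaceGroup Γ → QU.NiceDom Γ F → K ≤ r → 0 ≤ T → T ≤ κ * Real.log r →
  r ^ (-κ) ≤ ε → ε ≤ 1 → 1 / 4 ≤ J0 * ε → (J0 : ℝ) ≤ r ^ κ → 0 ≤ Q →
  MeasurableSet B1 → MeasurableSet Dp → (∀ (γ : Γ) (g : SL(2, ℝ)), (γ : SL(2, ℝ)) * g ∈ B1 ↔ g ∈ B1) → (∀ (γ : Γ) (g : SL(2, ℝ)), (γ : SL(2, ℝ)) * g ∈ Dp ↔ g ∈ Dp) →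
  (∀ (j : ℤ) (g k : SL(2, ℝ)) (w : ℍ), |j| ≤ (J0 : ℤ) → |k.1 1 0| ≤ r ^ (-(1 / 4) : ℝ) → |w.re| ≤ Real.exp (-T) / 4 → |Real.log w.im| ≤ 1 / 4 → |(k • w).re - j * ε| ≤ ε → |Real.log (k • w).im| ≤ 1 / 4 → g * k ∈ D → g * nM (j * ε) ∈ Dp) →
  (∀ (l : ℝ) (g g' : SL(2, ℝ)) (J : Finset ℤ) (a : ℤ → ℂ), 0 ≤ l → l ≤ r ^ (-(1 / 2) : ℝ) → (∀ j ∈ J, |j| ≤ (J0 : ℤ) ∧ ∃ u ∈ Icc (0 : ℝ) 1, g * lM (l * u) * nM (j * ε) ∈ Dp) →
    ∫ v in Icc (0 : ℝ) 1 ∩ {v | g' * lM v ∈ B1}, ‖∑ j ∈ J, a j * Complex.exp (((Real.pi * j * v / 2 : ℝ) : ℂ) * Complex.I)‖ ^ 2 ≤ Q * ∑ j ∈ J, ‖a j‖ ^ 2) →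
  ∀ s : SL(2, ℝ) → ℂ, Measurable s → (∃ m : ℝ, ∀ g, ‖s g‖ ≤ m) → (∀ (γ : Γ) g, s ((γ : SL(2, ℝ)) * g) = s g) → (∀ g, s g ≠ 0 → g ∈ D) →
    r ^ 2 * ∫ g in dG F ∩ {g | g * aM (Real.log (4 * ε * r / Real.pi)) ∈ B1}, ‖Wf (pk r (pc β α)) (sy Γ F (fun z => conj (pk r (pc (st (-T) β) α) z)) s) g‖ ^ 2 ∂mG ≤ (64 * Q + r ^ (-κ)) * iR F (fun g => ‖s g‖ ^ 2)

end

end Pool.Agent.T1
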